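import Pool.Agent.Zk53.AT5

set_option autoImplicit false

noncomputable section

namespace Pool.Agent.Zk53.Withdrawn.TreeClosure

/-- The orders of the finite subgroups of `G` are bounded, and `d` is their least common
multiple. -/
def IsLcm (G : Type) [Group G] (d : ℕ) : Prop :=
  (∃ N : ℕ, ∀ H : Subgroup G, Finite H → Nat.card H ≤ N) ∧
    (∀ H : Subgroup G, Finite H → Nat.card H ∣ d) ∧
    ∀ e : ℕ, (∀ H : Subgroup G, Finite H → Nat.card H ∣ e) → d ∣ e

/-- The kernel of right multiplication by the matrix `A` on `ℓ²(G)^m`. -/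
def kernel {G : Type} [Group G] {m n : ℕ} (A : Matrix (Fin m) (Fin n) (G →₀ ℂ)) :
    Set (lp (fun _ : Fin m × G => ℂ) 2) :=
  {x | ∀ (j : Fin n) (g : G),
    ∑ i : Fin m, (A i j).sum (fun h c => x (i, g * h⁻¹) * c) = 0}

open Classical in
/-- The von Neumann dimension of this kernel: the sum over `i` of one minus the squared distance
from the basis vector at `(i, 1)` to the kernel, that is, the trace of the projection onto the
kernel. -/
def kerDim {G : Type} [Group G] {m n : ℕ} (A : Matrix (Fin m) (Fin n) (G →₀ ℂ)) : ℝ :=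
  ∑ i : Fin m, (1 - (Metric.infDist
    (lp.single 2 (i, (1 : G)) (1 : ℂ) : lp (fun _ : Fin m × G => ℂ) 2) (kernel A)) ^ 2)

/-- `G` satisfies the Atiyah conjecture with coefficients in `ℂ` (and hence with coefficients in
any subfield): if the orders of the finite subgroups of `G` are bounded, with least common
multiple `d`, then `d · dim ker A` is an integer for every matrix `A` over `ℂ[G]`. -/
def Atiyah (G : Type) [Group G] : Prop :=
  ∀ d : ℕ, IsLcm G d → ∀ (m n : ℕ) (A : Matrix (Fin m) (Fin n) (G →₀ ℂ)),
    ∃ z : ℤ, (d : ℝ) * kerDim A = z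

/-- **The Atiyah conjecture for groups acting on trees with finite edge stabilisers.** Let `G` act
by automorphisms on a tree `T` so that the stabilisers of the edges are finite.

1. If all vertex stabilisers satisfy the Atiyah conjecture with coefficients in `ℂ`, then so does
   `G`.
2. Let `Λ` be any additive subgroup of `ℝ`. Suppose that `Λ` contains the kernel dimensions of all
   matrices over the group rings `ℂ[G_v]` of the vertex stabilisers, and the number `1 / |S|` for
   the setwise stabiliser `S` of each edge which is inverted by some element of `G`. Then `Λ`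
   contains the kernel dimensions of all matrices over `ℂ[G]`. -/
theorem result (G V : Type) [Group G] [MulAction G V] (T : SimpleGraph V) (hT : T.IsTree)
    (hact : ∀ (g : G) (v w : V), T.Adj v w → T.Adj (g • v) (g • w))
    (hfin : ∀ v w : V, T.Adj v w → Finite {g : G // g • v = v ∧ g • w = w}) :
    ((∀ v : V, Atiyah (MulAction.stabilizer G v)) → Atiyah G) ∧
    ∀ Λ : AddSubgroup ℝ,
      (∀ (v : V) (m n : ℕ) (A : Matrix (Fin m) (Fin n) (MulAction.stabilizer G v →₀ ℂ)),
        kerDim A ∈ Λ) →
      (∀ v w : V, T.Adj v w → (∃ g : G, g • v = w ∧ g • w = v) →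
        1 / (Nat.card {g : G // (g • v = v ∧ g • w = w) ∨ (g • v = w ∧ g • w = v)} : ℝ) ∈ Λ) →
      ∀ (m n : ℕ) (A : Matrix (Fin m) (Fin n) (G →₀ ℂ)), kerDim A ∈ Λ := by
  refine ⟨?_, ?_⟩
  · intro h d hd m n A
    exact Zk53.AT.tree_at hT hact hfin
      (fun v d' hd' => (Zk53.AT.good_iff _ _).2 fun m n A => h v d' hd' m n A) d hd _
      (W656.VA.val_kerDim A fun _ _ _ => Subring.mem_top _)
  · intro Λ h1 h2 m n A
    exact Zk53.AT.tree_good hT hact hfin Λ (fun v => (Zk53.AT.good_iff _ _).2 (h1 v)) h2 _
      (W656.VA.val_kerDim A fun _ _ _ => Subring.mem_top _)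

end Pool.Agent.Zk53.Withdrawn.TreeClosure
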