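import Pool.Agent.Zk53.AT13

set_option autoImplicit false

noncomputable section

namespace Pool.Agent.Zk53.Withdrawn.UnsplittableSubgroups

/-- The orders of the finite subgroups of `G` are bounded, and `d` is their least common
multiple. -/
def IsLcm (G : Type) [Group G] (d : ℕ) : Prop :=
  (∃ N : ℕ, ∀ H : Subgroup G, Finite H → Nat.card H ≤ N) ∧
    (∀ H : Subgroup G, Finite H → Nat.card H ∣ d) ∧
    ∀ e : ℕ, (∀ H : Subgroup G, Finite H → Nat.card H ∣ e) → d ∣ e

/-- The kernel of right multiplication by the matrix `A` on `ℓ²(G)^m`. -/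
def kernel {G : Type} [Group G] {m n : ℕ} (A : Matrix (Fin m) (Fin n) (G →₀ ℂ)) :
    Set (lp (fun _ : Fin m × G => ℂ) 2) :=
  {x | ∀ (j : Fin n) (g : G),
    ∑ i : Fin m, (A i j).sum (fun h c => x (i, g * h⁻¹) * c) = 0}

open Classical in
/-- The von Neumann dimension of this kernel: the sum over `i` of one minus the squared distance
from the basis vector at `(i, 1)` to the kernel, that is, the trace of the projection onto the
kernel. -/
def kerDim {G : Type} [Group G] {m n : ℕ} (A : Matrix (Fin m) (Fin n) (G →₀ ℂ)) : ℝ :=
  ∑ i : Fin m, (1 - (Metric.infDist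
    (lp.single 2 (i, (1 : G)) (1 : ℂ) : lp (fun _ : Fin m × G => ℂ) 2) (kernel A)) ^ 2)

/-- `G` satisfies the Atiyah conjecture with coefficients in `ℂ` (and hence with coefficients in
any subfield): if the orders of the finite subgroups of `G` are bounded, with least common
multiple `d`, then `d · dim ker A` is an integer for every matrix `A` over `ℂ[G]`. -/
def Atiyah (G : Type) [Group G] : Prop :=
  ∀ d : ℕ, IsLcm G d → ∀ (m n : ℕ) (A : Matrix (Fin m) (Fin n) (G →₀ ℂ)),
    ∃ z : ℤ, (d : ℝ) * kerDim A = z

/-- `H` does not split over a finite subgroup: every action of `H` by automorphisms and without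
inversions on a tree, with finite edge stabilisers, fixes a vertex. (By Bass-Serre theory and
Stallings' theorem, which are not used here, a finitely generated group has this property if and
only if it has at most one end.) -/
def Unsplittable (H : Type) [Group H] : Prop :=
  ∀ (V : Type) (_ : MulAction H V) (T : SimpleGraph V), T.IsTree →
    (∀ (g : H) (v w : V), T.Adj v w → T.Adj (g • v) (g • w)) →
    (∀ v w : V, T.Adj v w → Finite {g : H // g • v = v ∧ g • w = w}) →
    (∀ (g : H) (v w : V), T.Adj v w → ¬ (g • v = w ∧ g • w = v)) →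
    ∃ v : V, ∀ g : H, g • v = v

/-- **The Atiyah conjecture for `G` is decided on the finitely generated subgroups of `G` that do
not split over finite subgroups.** Let `G` be a group with a bound on the orders of its finite
subgroups.

1. If all finitely generated unsplittable subgroups of `G` satisfy the Atiyah conjecture with
   coefficients in `ℂ`, then so does `G`.
2. More generally, an additive subgroup of `ℝ` contains the kernel dimensions of all matrices over
   `ℂ[G]` if and only if it contains those of all matrices over `ℂ[H]`, for all finitely generated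
   unsplittable subgroups `H` of `G`. -/
theorem result (G : Type) [Group G]
    (hG : ∃ N : ℕ, ∀ K : Subgroup G, Finite K → Nat.card K ≤ N) :
    ((∀ H : Subgroup G, H.FG → Unsplittable H → Atiyah H) → Atiyah G) ∧
    ∀ Λ : AddSubgroup ℝ,
      (∀ (m n : ℕ) (A : Matrix (Fin m) (Fin n) (G →₀ ℂ)), kerDim A ∈ Λ) ↔
      ∀ H : Subgroup G, H.FG → Unsplittable H →
        ∀ (m n : ℕ) (A : Matrix (Fin m) (Fin n) (H →₀ ℂ)), kerDim A ∈ Λ := by
  obtain ⟨N, hN⟩ := hG
  refine ⟨fun h d hd m n A => ?_, fun Λ => ⟨fun h H _ _ => ?_, fun h => ?_⟩⟩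
  · exact Zk53.AT.local_at G
      (fun H h1 h2 d' hd' => (Zk53.AT.good_iff _ _).2 fun m n A => h H h1 h2 d' hd' m n A) d hd _
      (W656.VA.val_kerDim A fun _ _ _ => Subring.mem_top _)
  · exact (Zk53.AT.good_iff Λ H).1
      (((Zk53.AT.good_iff Λ G).2 h).of_injective H.subtype H.subtype_injective)
  · exact (Zk53.AT.good_iff Λ G).1
      (Zk53.AT.local_good G N hN Λ fun H h1 h2 => (Zk53.AT.good_iff Λ H).2 (h H h1 h2))

end Pool.Agent.Zk53.Withdrawn.UnsplittableSubgroups
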